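import Pool.Agent.Helper57.ZF.Goals

/-! MP_ef0af8_co, project ZF: the trivial incidence bounds. -/

set_option autoImplicit false

namespace Pool.Agent.Helper49.ZF

open Pool.Agent.Helper57.ZF

open scoped Classical in
theorem double_count {α β : Type} (A : Finset α) (B : Finset β) (R : α → β → Prop)
    (h : ∀ a ∈ A, ∀ a' ∈ A, a ≠ a' → (B.filter (fun b => R a b ∧ R a' b)).card ≤ 1) :
    ∑ b ∈ B, (A.filter (fun a => R a b)).card ≤ B.card + A.card ^ 2 := by
  have h1 : ∀ b ∈ B, (A.filter (fun a => R a b)).card ≤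
      1 + (A.offDiag.filter (fun p => R p.1 b ∧ R p.2 b)).card := by
    intro b _
    have h2 : A.offDiag.filter (fun p => R p.1 b ∧ R p.2 b) =
        (A.filter (fun a => R a b)).offDiag := by
      ext ⟨x, y⟩
      simp only [Finset.mem_filter, Finset.mem_offDiag]
      tauto
    rw [h2, Finset.offDiag_card]
    generalize (A.filter (fun a => R a b)).card = d
    rcases d with _ | _ | d
    · omega
    · omega
    · have : (d + 1 + 1) * (d + 1 + 1) - (d + 1 + 1) = (d + 1 + 1) * (d + 1) := by
        rw [Nat.mul_succ (d + 1 + 1) (d + 1)]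
        omega
      rw [this]
      nlinarith
  calc ∑ b ∈ B, (A.filter (fun a => R a b)).card
      ≤ ∑ b ∈ B, (1 + (A.offDiag.filter (fun p => R p.1 b ∧ R p.2 b)).card) :=
        Finset.sum_le_sum h1
    _ = B.card + ∑ b ∈ B, (A.offDiag.filter (fun p => R p.1 b ∧ R p.2 b)).card := by
        rw [Finset.sum_add_distrib]
        simp
    _ = B.card + ∑ p ∈ A.offDiag, (B.filter (fun b => R p.1 b ∧ R p.2 b)).card := by
        congr 1
        simp only [Finset.card_filter]
        exact Finset.sum_comm
    _ ≤ B.card + ∑ p ∈ A.offDiag, 1 := by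
        refine Nat.add_le_add_left (Finset.sum_le_sum fun p hp => ?_) _
        rw [Finset.mem_offDiag] at hp
        exact h p.1 hp.1 p.2 hp.2.1 hp.2.2
    _ ≤ B.card + A.card ^ 2 := by
        refine Nat.add_le_add_left ?_ _
        rw [Finset.sum_const, smul_eq_mul, mul_one, Finset.offDiag_card, sq]
        exact Nat.sub_le _ _

theorem TRIV : G_TRIV := by
  classical
  intro α β P F R hL
  have hL' : ∀ p ∈ P, ∀ q ∈ P, p ≠ q → (F.filter (fun f => R p f ∧ R q f)).card ≤ 1 := by
    intro p hp q hq hpq
    have := hL p hp q hq hpq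
    rwa [cnt_eq] at this
  have hinc : inc P F R = ∑ p ∈ P, (F.filter (fun f => R p f)).card := by
    unfold inc
    exact Finset.sum_congr rfl fun p _ => cnt_eq _ _
  constructor
  · have h1 := double_count P F R hL'
    have h2 : ∑ b ∈ F, (P.filter (fun a => R a b)).card =
        ∑ p ∈ P, (F.filter (fun f => R p f)).card := by
      simp only [Finset.card_filter]
      exact Finset.sum_comm
    rw [hinc, ← h2]
    omega
  · have hD : ∀ f ∈ F, ∀ g ∈ F, f ≠ g → (P.filter (fun p => R p f ∧ R p g)).card ≤ 1 := by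
      intro f hf g hg hfg
      rw [Finset.card_le_one]
      intro p hp q hq
      rw [Finset.mem_filter] at hp hq
      by_contra hpq
      have h1 := hL' p hp.1 q hq.1 hpq
      rw [Finset.card_le_one] at h1
      exact hfg (h1 f (Finset.mem_filter.2 ⟨hf, hp.2.1, hq.2.1⟩) g
        (Finset.mem_filter.2 ⟨hg, hp.2.2, hq.2.2⟩))
    have h1 := double_count F P (fun f p => R p f) hD
    rw [hinc]
    omega

end Pool.Agent.Helper49.ZF
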